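import Mathlib

/-!
# A self-similar polygonal tiling that is not obtained by the generating-pair method

The plane is `ℂ`.  The tiling is `6 ℤ[i]`-periodic, its tiles are squares of sides `1`, `2`, `3`.
-/

set_option autoImplicit false

namespace Pool.Agent.Results.MP_4b3b27_co.NotGenerated

open Set Metric

/-! ### Definitions -/

/-- `f` is a similitude with scaling ratio `r`. -/
def IsSimilitude (f : ℂ → ℂ) (r : ℝ) : Prop := 0 < r ∧ ∀ x y, dist (f x) (f y) = r * dist x y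

/-- The sides of the closed polygonal curve with vertices `v 0, v 1, …, v (n - 1)`. -/
def side {n : ℕ} (v : ZMod n → ℂ) (i : ZMod n) : Set ℂ := segment ℝ (v i) (v (i + 1))

/-- A closed polygonal curve whose sides meet only at the vertices: distinct sides meet at most in
a common end point of two consecutive sides. -/
def IsSimpleCurve {n : ℕ} (v : ZMod n → ℂ) : Prop :=
  3 ≤ n ∧ Function.Injective v ∧ ∀ i j, i ≠ j → ∀ x ∈ side v i ∩ side v j,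
    (j = i + 1 ∧ x = v j) ∨ (i = j + 1 ∧ x = v i)

/-- A polygon: a compact set with non-empty interior whose boundary is a closed polygonal curve
whose sides meet only at the vertices. -/
def IsPolygon (s : Set ℂ) : Prop :=
  IsCompact s ∧ (interior s).Nonempty ∧
    ∃ (n : ℕ) (v : ZMod n → ℂ), IsSimpleCurve v ∧ frontier s = ⋃ i, side v i

/-- A tiling: a set of compact sets with union the plane, any two of which meet only in boundary
points. -/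
def IsTiling (T : Set (Set ℂ)) : Prop :=
  (∀ t ∈ T, IsCompact t) ∧ ⋃₀ T = univ ∧
    ∀ t ∈ T, ∀ t' ∈ T, t ≠ t' → t ∩ t' ⊆ frontier t ∩ frontier t'

/-- The tiles fall in finitely many congruence classes. -/
def FiniteOrder (T : Set (Set ℂ)) : Prop :=
  ∃ R : Set (Set ℂ), R.Finite ∧ ∀ t ∈ T, ∃ r ∈ R, ∃ g : ℂ ≃ᵢ ℂ, g '' r = t

/-- A patch of `T`: a subset whose union is a topological disk. -/
def IsPatch (T U : Set (Set ℂ)) : Prop :=
  U ⊆ T ∧ Nonempty ((⋃₀ U : Set ℂ) ≃ₜ (closedBall (0 : ℂ) 1))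

/-- For every patch `U` there is `R > 0` such that each disk of radius `R` contains a patch
congruent to `U`. -/
def IsQuasiperiodic (T : Set (Set ℂ)) : Prop :=
  ∀ U, IsPatch T U → ∃ R : ℝ, 0 < R ∧ ∀ c : ℂ, ∃ g : ℂ ≃ᵢ ℂ,
    IsPatch T ((fun t => g '' t) '' U) ∧ ⋃₀ ((fun t => g '' t) '' U) ⊆ ball c R

/-- Some similitude of ratio `> 1` sends every tile to a union of tiles. -/
def IsSelfSimilar (T : Set (Set ℂ)) : Prop :=
  ∃ (φ : ℂ → ℂ) (r : ℝ), IsSimilitude φ r ∧ 1 < r ∧ ∀ t ∈ T, ∃ S ⊆ T, φ '' t = ⋃₀ S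

/-- A self-similar polygonal tiling. -/
def IsSelfSimilarPolygonal (T : Set (Set ℂ)) : Prop :=
  IsTiling T ∧ IsSelfSimilar T ∧ IsQuasiperiodic T ∧ FiniteOrder T ∧ (∀ t ∈ T, IsPolygon t) ∧
    ∀ t ∈ T, ∀ t' ∈ T, ∃ (f : ℂ → ℂ) (r : ℝ), IsSimilitude f r ∧ f '' t = t'

/-- `(p, F)` is a generating pair, with `F = {f 0, …, f (N - 1)}`, with ratios `s ^ a i`. -/
def IsGeneratingPair (p : Set ℂ) {N : ℕ} (f : Fin N → ℂ ≃ ℂ) (s : ℝ) (a : Fin N → ℕ) : Prop :=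
  IsPolygon p ∧ 2 ≤ N ∧ 0 < s ∧ s < 1 ∧ (∀ i, 0 < a i) ∧ Finset.univ.gcd a = 1 ∧
    (∀ i, IsSimilitude (f i) (s ^ a i)) ∧ p = ⋃ i, f i '' p ∧
    ∀ i j, i ≠ j → f i '' p ∩ f j '' p ⊆ frontier (f i '' p) ∩ frontier (f j '' p)

/-- `e σ = a σ₁ + ⋯ + a σₖ` -/
def e {N : ℕ} (a : Fin N → ℕ) (σ : List (Fin N)) : ℕ := (σ.map a).sum

/-- `f σ = f σ₁ ∘ ⋯ ∘ f σₖ` -/
def comp {N : ℕ} (f : Fin N → ℂ ≃ ℂ) : List (Fin N) → ℂ → ℂ
  | [] => id
  | i :: σ => f i ∘ comp f σ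

/-- `f (-σ) = (f σ₁)⁻¹ ∘ ⋯ ∘ (f σₖ)⁻¹` -/
def compInv {N : ℕ} (f : Fin N → ℂ ≃ ℂ) : List (Fin N) → ℂ → ℂ
  | [] => id
  | i :: σ => (f i).symm ∘ compInv f σ

/-- the prefix of length `k` of an infinite string -/
def pre {N : ℕ} (θ : ℕ → Fin N) (k : ℕ) : List (Fin N) := List.ofFn (fun i : Fin k => θ i)

/-- `T(θ, k)` -/
def level (p : Set ℂ) {N : ℕ} (f : Fin N → ℂ ≃ ℂ) (a : Fin N → ℕ) (θ : ℕ → Fin N) (k : ℕ) :
    Set (Set ℂ) :=
  {t | ∃ σ : List (Fin N), e a (pre θ k) ≤ e a σ ∧ e a σ.dropLast < e a (pre θ k) ∧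
    t = (compInv f (pre θ k) ∘ comp f σ) '' p}

/-- `T(p, F, θ)` -/
def generated (p : Set ℂ) {N : ℕ} (f : Fin N → ℂ ≃ ℂ) (a : Fin N → ℕ) (θ : ℕ → Fin N) :
    Set (Set ℂ) := ⋃ k ∈ {k : ℕ | 1 ≤ k}, level p f a θ k

/-! ### The tiling -/

/-- the square with lower left corner `X + i Y` and side `A` -/
def Sq (X Y A : ℤ) : Set ℂ := Icc (X : ℝ) (X + A) ×ℂ Icc (Y : ℝ) (Y + A)

lemma mem_Sq {X Y A : ℤ} {z : ℂ} :
    z ∈ Sq X Y A ↔ ((X : ℝ) ≤ z.re ∧ z.re ≤ X + A) ∧ ((Y : ℝ) ≤ z.im ∧ z.im ≤ Y + A) := Iff.rfl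

/-- the admissible positions: squares of side 3 at the points `6 ℤ²`, squares of side 2 at the
points `(3, 0) + 6 ℤ²`, squares of side 1 elsewhere -/
def Good (X Y A : ℤ) : Prop :=
  (A = 3 ∧ X % 6 = 0 ∧ Y % 6 = 0) ∨ (A = 2 ∧ X % 6 = 3 ∧ Y % 6 = 0) ∨
    (A = 1 ∧ ¬ (X % 6 < 3 ∧ Y % 6 < 3) ∧ ¬ (3 ≤ X % 6 ∧ X % 6 < 5 ∧ Y % 6 < 2))

/-- the tiling -/
def T₀ : Set (Set ℂ) := {t | ∃ X Y A : ℤ, Good X Y A ∧ t = Sq X Y A}

lemma exists_owner (i j : ℤ) : ∃ X Y A : ℤ, Good X Y A ∧ X ≤ i ∧ i < X + A ∧ Y ≤ j ∧ j < Y + A := by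
  by_cases h1 : i % 6 < 3 ∧ j % 6 < 3
  · exact ⟨i - i % 6, j - j % 6, 3, Or.inl ⟨rfl, by omega, by omega⟩, by omega, by omega, by omega,
      by omega⟩
  · by_cases h2 : 3 ≤ i % 6 ∧ i % 6 < 5 ∧ j % 6 < 2
    · exact ⟨i - i % 6 + 3, j - j % 6, 2, Or.inr (Or.inl ⟨rfl, by omega, by omega⟩), by omega,
        by omega, by omega, by omega⟩
    · exact ⟨i, j, 1, Or.inr (Or.inr ⟨rfl, h1, h2⟩), by omega, by omega, by omega, by omega⟩

lemma owner_unique {X Y A X' Y' A' i j : ℤ} (h : Good X Y A) (h' : Good X' Y' A')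
    (h1 : X ≤ i) (h2 : i < X + A) (h3 : Y ≤ j) (h4 : j < Y + A)
    (h1' : X' ≤ i) (h2' : i < X' + A') (h3' : Y' ≤ j) (h4' : j < Y' + A') :
    X = X' ∧ Y = Y' ∧ A = A' := by
  rcases h with ⟨rfl, hx, hy⟩ | ⟨rfl, hx, hy⟩ | ⟨rfl, hx, hy⟩ <;>
  rcases h' with ⟨rfl, hx', hy'⟩ | ⟨rfl, hx', hy'⟩ | ⟨rfl, hx', hy'⟩ <;> omega

lemma good_pos {X Y A : ℤ} (h : Good X Y A) : 0 < A := by
  rcases h with ⟨rfl, -⟩ | ⟨rfl, -⟩ | ⟨rfl, -⟩ <;> norm_num

/-- a real number in an open interval with integer end points and in a closed interval with integer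
end points lies in a unit interval contained in both -/
lemma exists_int {X B X' B' : ℤ} {x : ℝ} (h1 : (X : ℝ) < x) (h2 : x < B)
    (h1' : (X' : ℝ) ≤ x) (h2' : x ≤ B') (hB : X' < B') :
    ∃ i : ℤ, X ≤ i ∧ i < B ∧ X' ≤ i ∧ i < B' := by
  by_cases h : x = B'
  · refine ⟨B' - 1, ?_, ?_, by omega, by omega⟩
    · have : (X : ℝ) < B' := h ▸ h1
      have : X < B' := by exact_mod_cast this
      omega
    · have : (B' : ℝ) < B := h ▸ h2
      have : B' < B := by exact_mod_cast this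
      omega
  · have h3 : x < B' := lt_of_le_of_ne h2' h
    refine ⟨⌊x⌋, Int.le_floor.2 h1.le, Int.floor_lt.2 h2, Int.le_floor.2 h1', Int.floor_lt.2 h3⟩

lemma interior_Sq (X Y A : ℤ) :
    interior (Sq X Y A) = Ioo (X : ℝ) (X + A) ×ℂ Ioo (Y : ℝ) (Y + A) := by
  rw [Sq, Complex.interior_reProdIm, interior_Icc, interior_Icc]

lemma isCompact_Sq (X Y A : ℤ) : IsCompact (Sq X Y A) := isCompact_Icc.reProdIm isCompact_Icc

/-- two squares of the tiling, an interior point of one of which lies in the other, are equal -/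
lemma eq_of_mem_interior {X Y A X' Y' A' : ℤ} (h : Good X Y A) (h' : Good X' Y' A') {z : ℂ}
    (hz : z ∈ interior (Sq X Y A)) (hz' : z ∈ Sq X' Y' A') : Sq X Y A = Sq X' Y' A' := by
  rw [interior_Sq] at hz
  obtain ⟨⟨a1, a2⟩, a3, a4⟩ := hz
  obtain ⟨⟨b1, b2⟩, b3, b4⟩ := hz'
  have hA := good_pos h'
  obtain ⟨i, i1, i2, i3, i4⟩ := exists_int (X := X) (B := X + A) (X' := X') (B' := X' + A')
    a1 (by push_cast; exact a2) b1 (by push_cast; exact b2) (by omega)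
  obtain ⟨j, j1, j2, j3, j4⟩ := exists_int (X := Y) (B := Y + A) (X' := Y') (B' := Y' + A')
    a3 (by push_cast; exact a4) b3 (by push_cast; exact b4) (by omega)
  obtain ⟨rfl, rfl, rfl⟩ := owner_unique h h' i1 i2 j1 j2 i3 i4 j3 j4
  rfl

lemma isTiling : IsTiling T₀ := by
  refine ⟨?_, ?_, ?_⟩
  · rintro _ ⟨X, Y, A, -, rfl⟩
    exact isCompact_Sq X Y A
  · rw [eq_univ_iff_forall]
    intro z
    obtain ⟨X, Y, A, hg, h1, h2, h3, h4⟩ := exists_owner ⌊z.re⌋ ⌊z.im⌋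
    refine mem_sUnion.2 ⟨_, ⟨X, Y, A, hg, rfl⟩, ?_⟩
    rw [mem_Sq]
    have e1 : (X : ℝ) ≤ ⌊z.re⌋ := by exact_mod_cast h1
    have e2 : ((⌊z.re⌋ : ℤ) : ℝ) + 1 ≤ X + A := by exact_mod_cast h2
    have e3 : (Y : ℝ) ≤ ⌊z.im⌋ := by exact_mod_cast h3
    have e4 : ((⌊z.im⌋ : ℤ) : ℝ) + 1 ≤ Y + A := by exact_mod_cast h4
    have := Int.floor_le z.re
    have := Int.lt_floor_add_one z.re
    have := Int.floor_le z.im
    have := Int.lt_floor_add_one z.im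
    refine ⟨⟨?_, ?_⟩, ?_, ?_⟩ <;> linarith
  · rintro _ ⟨X, Y, A, hg, rfl⟩ _ ⟨X', Y', A', hg', rfl⟩ hne z ⟨hz, hz'⟩
    rw [(isCompact_Sq X Y A).isClosed.frontier_eq, (isCompact_Sq X' Y' A').isClosed.frontier_eq]
    exact ⟨⟨hz, fun hi => hne (eq_of_mem_interior hg hg' hi hz')⟩,
      ⟨hz', fun hi => hne (eq_of_mem_interior hg' hg hi hz).symm⟩⟩

lemma image_add_Sq (X Y A m n : ℤ) :
    (fun z : ℂ => (⟨m, n⟩ : ℂ) + z) '' Sq X Y A = Sq (X + m) (Y + n) A := by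
  ext z
  constructor
  · rintro ⟨w, hw, rfl⟩
    rw [mem_Sq] at hw ⊢
    simp only [Complex.add_re, Complex.add_im]
    push_cast
    refine ⟨⟨?_, ?_⟩, ?_, ?_⟩ <;> linarith [hw.1.1, hw.1.2, hw.2.1, hw.2.2]
  · intro hz
    refine ⟨z - ⟨m, n⟩, ?_, by ring⟩
    rw [mem_Sq] at hz ⊢
    simp only [Complex.sub_re, Complex.sub_im]
    push_cast at hz
    refine ⟨⟨?_, ?_⟩, ?_, ?_⟩ <;> linarith [hz.1.1, hz.1.2, hz.2.1, hz.2.2]

lemma finiteOrder : FiniteOrder T₀ := by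
  refine ⟨{Sq 0 0 1, Sq 0 0 2, Sq 0 0 3}, by simp, ?_⟩
  rintro _ ⟨X, Y, A, hg, rfl⟩
  refine ⟨Sq 0 0 A, ?_, IsometryEquiv.addLeft (⟨X, Y⟩ : ℂ), ?_⟩
  · rcases hg with ⟨rfl, -⟩ | ⟨rfl, -⟩ | ⟨rfl, -⟩ <;> simp
  · have := image_add_Sq 0 0 A X Y
    rw [zero_add, zero_add] at this
    exact this

lemma good_add {X Y A : ℤ} (h : Good X Y A) (m n : ℤ) : Good (X + 6 * m) (Y + 6 * n) A := by
  rcases h with ⟨rfl, hx, hy⟩ | ⟨rfl, hx, hy⟩ | ⟨rfl, hx, hy⟩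
  · exact Or.inl ⟨rfl, by omega, by omega⟩
  · exact Or.inr (Or.inl ⟨rfl, by omega, by omega⟩)
  · exact Or.inr (Or.inr ⟨rfl, by omega, by omega⟩)

lemma isQuasiperiodic : IsQuasiperiodic T₀ := by
  rintro U ⟨hU, ⟨e⟩⟩
  have hc : IsCompact (⋃₀ U : Set ℂ) := by
    rw [isCompact_iff_compactSpace]
    have : CompactSpace (closedBall (0 : ℂ) 1) :=
      isCompact_iff_compactSpace.1 (isCompact_closedBall 0 1)
    exact e.symm.compactSpace
  obtain ⟨ρ, hρ⟩ := hc.isBounded.subset_closedBall (0 : ℂ)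
  refine ⟨|ρ| + 13, by positivity, fun c => ?_⟩
  set m : ℤ := ⌊c.re / 6⌋ with hm
  set n : ℤ := ⌊c.im / 6⌋ with hn
  set w : ℂ := ⟨((6 * m : ℤ) : ℝ), ((6 * n : ℤ) : ℝ)⟩ with hw
  refine ⟨IsometryEquiv.addLeft w, ⟨?_, ⟨?_⟩⟩, ?_⟩
  · rintro _ ⟨t, ht, rfl⟩
    obtain ⟨X, Y, A, hg, rfl⟩ := hU ht
    refine ⟨X + 6 * m, Y + 6 * n, A, good_add hg m n, ?_⟩
    exact image_add_Sq X Y A (6 * m) (6 * n)
  · have h1 : (⋃₀ ((fun t => (IsometryEquiv.addLeft w) '' t) '' U) : Set ℂ) =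
        (IsometryEquiv.addLeft w).toHomeomorph '' (⋃₀ U) := by
      rw [sUnion_image, sUnion_eq_biUnion, image_iUnion₂]
      rfl
    rw [h1]
    exact ((IsometryEquiv.addLeft w).toHomeomorph.image (⋃₀ U)).symm.trans e
  · rintro _ ⟨_, ⟨t, ht, rfl⟩, ⟨z, hz, rfl⟩⟩
    have h2 : z ∈ closedBall (0 : ℂ) ρ := hρ (mem_sUnion.2 ⟨t, ht, hz⟩)
    rw [mem_closedBall_zero_iff] at h2
    rw [mem_ball, dist_eq_norm]
    have h3 : (IsometryEquiv.addLeft w) z - c = z + (w - c) := by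
      change w + z - c = _
      ring
    rw [h3]
    have h4 : ‖w - c‖ ≤ 12 := by
      refine (Complex.norm_le_abs_re_add_abs_im _).trans ?_
      have a1 := Int.floor_le (c.re / 6)
      have a2 := Int.lt_floor_add_one (c.re / 6)
      have a3 := Int.floor_le (c.im / 6)
      have a4 := Int.lt_floor_add_one (c.im / 6)
      rw [← hm] at a1 a2
      rw [← hn] at a3 a4
      have b1 : |(w - c).re| ≤ 6 := by
        rw [Complex.sub_re, hw]
        simp only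
        push_cast
        rw [abs_le]
        constructor <;> linarith
      have b2 : |(w - c).im| ≤ 6 := by
        rw [Complex.sub_im, hw]
        simp only
        push_cast
        rw [abs_le]
        constructor <;> linarith
      linarith
    calc ‖z + (w - c)‖ ≤ ‖z‖ + ‖w - c‖ := norm_add_le _ _
      _ ≤ |ρ| + 12 := add_le_add (h2.trans (le_abs_self ρ)) h4
      _ < |ρ| + 13 := by linarith

lemma image_mul_Sq (X Y A : ℤ) (c : ℝ) (hc : 0 < c) :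
    (fun z : ℂ => (c : ℂ) * z) '' Sq X Y A =
      Icc (c * X) (c * (X + A)) ×ℂ Icc (c * Y) (c * (Y + A)) := by
  ext z
  rw [Complex.mem_reProdIm, mem_Icc, mem_Icc]
  constructor
  · rintro ⟨w, hw, rfl⟩
    rw [mem_Sq] at hw
    simp only [Complex.re_ofReal_mul, Complex.im_ofReal_mul]
    exact ⟨⟨mul_le_mul_of_nonneg_left hw.1.1 hc.le, mul_le_mul_of_nonneg_left hw.1.2 hc.le⟩,
      mul_le_mul_of_nonneg_left hw.2.1 hc.le, mul_le_mul_of_nonneg_left hw.2.2 hc.le⟩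
  · rintro ⟨⟨h1, h2⟩, h3, h4⟩
    refine ⟨((c⁻¹ : ℝ) : ℂ) * z, ?_, ?_⟩
    · rw [mem_Sq]
      simp only [Complex.re_ofReal_mul, Complex.im_ofReal_mul]
      rw [inv_mul_eq_div, inv_mul_eq_div]
      refine ⟨⟨?_, ?_⟩, ?_, ?_⟩
      · rw [le_div_iff₀ hc]; linarith
      · rw [div_le_iff₀ hc]; linarith
      · rw [le_div_iff₀ hc]; linarith
      · rw [div_le_iff₀ hc]; linarith
    · simp only
      rw [← mul_assoc, ← Complex.ofReal_mul, mul_inv_cancel₀ hc.ne', Complex.ofReal_one, one_mul]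

lemma similitude_mul (c : ℝ) (hc : 0 < c) : IsSimilitude (fun z : ℂ => (c : ℂ) * z) c := by
  refine ⟨hc, fun x y => ?_⟩
  rw [dist_eq_norm, ← mul_sub, norm_mul, Complex.norm_real, Real.norm_of_nonneg hc.le,
    dist_eq_norm]

lemma exists_int' {X B : ℤ} {x : ℝ} (h1 : (X : ℝ) ≤ x) (h2 : x ≤ B) (hB : X < B) :
    ∃ i : ℤ, X ≤ i ∧ i < B ∧ (i : ℝ) ≤ x ∧ x ≤ i + 1 := by
  by_cases h : x = B
  · refine ⟨B - 1, by omega, by omega, ?_, ?_⟩ <;> push_cast <;> linarith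
  · exact ⟨⌊x⌋, Int.le_floor.2 h1, Int.floor_lt.2 (lt_of_le_of_ne h2 h), Int.floor_le x,
      (Int.lt_floor_add_one x).le⟩

lemma isSelfSimilar : IsSelfSimilar T₀ := by
  refine ⟨fun z => ((6 : ℝ) : ℂ) * z, 6, similitude_mul 6 (by norm_num), by norm_num, ?_⟩
  rintro _ ⟨X, Y, A, hg, rfl⟩
  have hA := good_pos hg
  refine ⟨{t ∈ T₀ | t ⊆ (fun z => ((6 : ℝ) : ℂ) * z) '' Sq X Y A}, fun t ht => ht.1, ?_⟩
  apply Subset.antisymm
  · intro z hz
    have hz' := hz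
    rw [image_mul_Sq X Y A 6 (by norm_num), Complex.mem_reProdIm, mem_Icc, mem_Icc] at hz'
    obtain ⟨⟨h1, h2⟩, h3, h4⟩ := hz'
    obtain ⟨i, i1, i2, i3, i4⟩ := exists_int' (X := 6 * X) (B := 6 * (X + A)) (x := z.re)
      (by push_cast; exact h1) (by push_cast; exact h2) (by omega)
    obtain ⟨j, j1, j2, j3, j4⟩ := exists_int' (X := 6 * Y) (B := 6 * (Y + A)) (x := z.im)
      (by push_cast; exact h3) (by push_cast; exact h4) (by omega)
    obtain ⟨X', Y', A', hg', k1, k2, k3, k4⟩ := exists_owner i j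
    refine mem_sUnion.2 ⟨Sq X' Y' A', ⟨⟨X', Y', A', hg', rfl⟩, ?_⟩, ?_⟩
    · intro w hw
      rw [image_mul_Sq X Y A 6 (by norm_num), Complex.mem_reProdIm, mem_Icc, mem_Icc]
      rw [mem_Sq] at hw
      have l1 : 6 * X ≤ X' ∧ X' + A' ≤ 6 * (X + A) := by
        rcases hg' with ⟨rfl, hx, hy⟩ | ⟨rfl, hx, hy⟩ | ⟨rfl, hx, hy⟩ <;> omega
      have l2 : 6 * Y ≤ Y' ∧ Y' + A' ≤ 6 * (Y + A) := by
        rcases hg' with ⟨rfl, hx, hy⟩ | ⟨rfl, hx, hy⟩ | ⟨rfl, hx, hy⟩ <;> omega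
      have m1 : (6 : ℝ) * X ≤ X' := by exact_mod_cast l1.1
      have m2 : (X' : ℝ) + A' ≤ 6 * (X + A) := by exact_mod_cast l1.2
      have m3 : (6 : ℝ) * Y ≤ Y' := by exact_mod_cast l2.1
      have m4 : (Y' : ℝ) + A' ≤ 6 * (Y + A) := by exact_mod_cast l2.2
      refine ⟨⟨?_, ?_⟩, ?_, ?_⟩ <;> linarith [hw.1.1, hw.1.2, hw.2.1, hw.2.2]
    · rw [mem_Sq]
      have m1 : (X' : ℝ) ≤ i := by exact_mod_cast k1
      have m2 : (i : ℝ) + 1 ≤ X' + A' := by exact_mod_cast k2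
      have m3 : (Y' : ℝ) ≤ j := by exact_mod_cast k3
      have m4 : (j : ℝ) + 1 ≤ Y' + A' := by exact_mod_cast k4
      refine ⟨⟨?_, ?_⟩, ?_, ?_⟩ <;> linarith
  · rintro z ⟨t, ht, hz⟩
    exact ht.2 hz

lemma all_similar : ∀ t ∈ T₀, ∀ t' ∈ T₀,
    ∃ (f : ℂ → ℂ) (r : ℝ), IsSimilitude f r ∧ f '' t = t' := by
  rintro _ ⟨X, Y, A, hg, rfl⟩ _ ⟨X', Y', A', hg', rfl⟩
  have hA : (0 : ℝ) < A := by exact_mod_cast good_pos hg
  have hA' : (0 : ℝ) < A' := by exact_mod_cast good_pos hg'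
  set c : ℝ := A' / A with hc
  have hc0 : 0 < c := div_pos hA' hA
  have hcA : c * A = A' := by rw [hc]; field_simp
  set w : ℂ := ⟨X' - c * X, Y' - c * Y⟩ with hw
  refine ⟨fun z => w + (c : ℂ) * z, c, ⟨hc0, fun x y => ?_⟩, ?_⟩
  · rw [dist_add_left]
    exact (similitude_mul c hc0).2 x y
  · have h1 : (fun z : ℂ => w + (c : ℂ) * z) '' Sq X Y A =
        (fun z => w + z) '' ((fun z : ℂ => (c : ℂ) * z) '' Sq X Y A) := by
      rw [image_image]
    rw [h1, image_mul_Sq X Y A c hc0]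
    ext z
    rw [mem_Sq]
    constructor
    · rintro ⟨u, hu, rfl⟩
      rw [Complex.mem_reProdIm, mem_Icc, mem_Icc] at hu
      simp only [Complex.add_re, Complex.add_im, hw]
      refine ⟨⟨?_, ?_⟩, ?_, ?_⟩ <;> linarith [hu.1.1, hu.1.2, hu.2.1, hu.2.2]
    · rintro ⟨⟨a1, a2⟩, a3, a4⟩
      refine ⟨z - w, ?_, by ring⟩
      rw [Complex.mem_reProdIm, mem_Icc, mem_Icc]
      simp only [Complex.sub_re, Complex.sub_im, hw]
      refine ⟨⟨?_, ?_⟩, ?_, ?_⟩ <;> linarith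

/-! ### Squares are polygons -/

/-- the four corners -/
def corner (X Y A : ℝ) : ZMod 4 → ℂ := ![⟨X, Y⟩, ⟨X + A, Y⟩, ⟨X + A, Y + A⟩, ⟨X, Y + A⟩]

lemma seg_re {y x x' : ℝ} (h : x ≤ x') :
    segment ℝ (⟨x, y⟩ : ℂ) ⟨x', y⟩ = Icc x x' ×ℂ {y} := by
  ext z
  rw [Complex.mem_reProdIm, mem_Icc, mem_singleton_iff]
  constructor
  · rintro ⟨a, b, ha, hb, hab, rfl⟩
    simp only [Complex.add_re, Complex.add_im, Complex.real_smul, Complex.re_ofReal_mul,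
      Complex.im_ofReal_mul]
    refine ⟨⟨?_, ?_⟩, ?_⟩
    · obtain rfl : a = 1 - b := by linarith
      nlinarith [mul_nonneg hb (sub_nonneg.2 h)]
    · obtain rfl : b = 1 - a := by linarith
      nlinarith [mul_nonneg ha (sub_nonneg.2 h)]
    · rw [← add_mul, hab, one_mul]
  · rintro ⟨⟨h1, h2⟩, h3⟩
    rcases h.eq_or_lt with rfl | hlt
    · have : z = ⟨x, y⟩ := Complex.ext (le_antisymm h2 h1) h3
      rw [this]
      exact left_mem_segment ℝ _ _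
    · have hd : 0 < x' - x := sub_pos.2 hlt
      refine ⟨(x' - z.re) / (x' - x), (z.re - x) / (x' - x), div_nonneg (by linarith) hd.le,
        div_nonneg (by linarith) hd.le, ?_, ?_⟩
      · field_simp
        ring
      · apply Complex.ext
        · simp only [Complex.add_re, Complex.real_smul, Complex.re_ofReal_mul]
          field_simp
          ring
        · simp only [Complex.add_im, Complex.real_smul, Complex.im_ofReal_mul]
          rw [h3]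
          field_simp
          ring

lemma seg_im {x y y' : ℝ} (h : y ≤ y') :
    segment ℝ (⟨x, y⟩ : ℂ) ⟨x, y'⟩ = {x} ×ℂ Icc y y' := by
  ext z
  rw [Complex.mem_reProdIm, mem_Icc, mem_singleton_iff]
  constructor
  · rintro ⟨a, b, ha, hb, hab, rfl⟩
    simp only [Complex.add_re, Complex.add_im, Complex.real_smul, Complex.re_ofReal_mul,
      Complex.im_ofReal_mul]
    refine ⟨?_, ?_, ?_⟩
    · rw [← add_mul, hab, one_mul]
    · obtain rfl : a = 1 - b := by linarith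
      nlinarith [mul_nonneg hb (sub_nonneg.2 h)]
    · obtain rfl : b = 1 - a := by linarith
      nlinarith [mul_nonneg ha (sub_nonneg.2 h)]
  · rintro ⟨h3, h1, h2⟩
    rcases h.eq_or_lt with rfl | hlt
    · have : z = ⟨x, y⟩ := Complex.ext h3 (le_antisymm h2 h1)
      rw [this]
      exact left_mem_segment ℝ _ _
    · have hd : 0 < y' - y := sub_pos.2 hlt
      refine ⟨(y' - z.im) / (y' - y), (z.im - y) / (y' - y), div_nonneg (by linarith) hd.le,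
        div_nonneg (by linarith) hd.le, ?_, ?_⟩
      · field_simp
        ring
      · apply Complex.ext
        · simp only [Complex.add_re, Complex.real_smul, Complex.re_ofReal_mul]
          rw [h3]
          field_simp
          ring
        · simp only [Complex.add_im, Complex.real_smul, Complex.im_ofReal_mul]
          field_simp
          ring

lemma side0 (X Y A : ℝ) (hA : 0 < A) : side (corner X Y A) 0 = Icc X (X + A) ×ℂ {Y} :=
  seg_re (by linarith)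

lemma side1 (X Y A : ℝ) (hA : 0 < A) : side (corner X Y A) 1 = {X + A} ×ℂ Icc Y (Y + A) :=
  seg_im (by linarith)

lemma side2 (X Y A : ℝ) (hA : 0 < A) : side (corner X Y A) 2 = Icc X (X + A) ×ℂ {Y + A} := by
  rw [← seg_re (by linarith), segment_symm]
  rfl

lemma side3 (X Y A : ℝ) (hA : 0 < A) : side (corner X Y A) 3 = {X} ×ℂ Icc Y (Y + A) := by
  rw [← seg_im (by linarith), segment_symm]
  rfl

lemma forall_four {P : ZMod 4 → Prop} (h0 : P 0) (h1 : P 1) (h2 : P 2) (h3 : P 3) : ∀ i, P i := by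
  intro i
  fin_cases i
  exacts [h0, h1, h2, h3]

lemma simple_corner (X Y A : ℝ) (hA : 0 < A) : IsSimpleCurve (corner X Y A) := by
  refine ⟨by norm_num, ?_, ?_⟩
  · have c0 : corner X Y A 0 = ⟨X, Y⟩ := rfl
    have c1 : corner X Y A 1 = ⟨X + A, Y⟩ := rfl
    have c2 : corner X Y A 2 = ⟨X + A, Y + A⟩ := rfl
    have c3 : corner X Y A 3 = ⟨X, Y + A⟩ := rfl
    refine forall_four (forall_four ?_ ?_ ?_ ?_) (forall_four ?_ ?_ ?_ ?_)
      (forall_four ?_ ?_ ?_ ?_) (forall_four ?_ ?_ ?_ ?_) <;>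
    · intro h
      first
      | rfl
      | (exfalso
         simp only [c0, c1, c2, c3, Complex.mk.injEq] at h
         linarith [h.1, h.2])
  · have c0 : corner X Y A 0 = ⟨X, Y⟩ := rfl
    have c1 : corner X Y A 1 = ⟨X + A, Y⟩ := rfl
    have c2 : corner X Y A 2 = ⟨X + A, Y + A⟩ := rfl
    have c3 : corner X Y A 3 = ⟨X, Y + A⟩ := rfl
    have s0 := side0 X Y A hA
    have s1 := side1 X Y A hA
    have s2 := side2 X Y A hA
    have s3 := side3 X Y A hA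
    refine forall_four (forall_four ?_ ?_ ?_ ?_) (forall_four ?_ ?_ ?_ ?_)
      (forall_four ?_ ?_ ?_ ?_) (forall_four ?_ ?_ ?_ ?_)
    · exact fun h => absurd rfl h
    · rintro - x ⟨hx, hx'⟩
      rw [s0] at hx; rw [s1] at hx'
      exact Or.inl ⟨rfl, Complex.ext hx'.1 hx.2⟩
    · rintro - x ⟨hx, hx'⟩
      rw [s0] at hx; rw [s2] at hx'
      have h1 : x.im = Y := hx.2
      have h2 : x.im = Y + A := hx'.2
      linarith
    · rintro - x ⟨hx, hx'⟩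
      rw [s0] at hx; rw [s3] at hx'
      exact Or.inr ⟨rfl, Complex.ext hx'.1 hx.2⟩
    · rintro - x ⟨hx, hx'⟩
      rw [s1] at hx; rw [s0] at hx'
      exact Or.inr ⟨rfl, Complex.ext hx.1 hx'.2⟩
    · exact fun h => absurd rfl h
    · rintro - x ⟨hx, hx'⟩
      rw [s1] at hx; rw [s2] at hx'
      exact Or.inl ⟨rfl, Complex.ext hx.1 hx'.2⟩
    · rintro - x ⟨hx, hx'⟩
      rw [s1] at hx; rw [s3] at hx'
      have h1 : x.re = X + A := hx.1
      have h2 : x.re = X := hx'.1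
      linarith
    · rintro - x ⟨hx, hx'⟩
      rw [s2] at hx; rw [s0] at hx'
      have h1 : x.im = Y + A := hx.2
      have h2 : x.im = Y := hx'.2
      linarith
    · rintro - x ⟨hx, hx'⟩
      rw [s2] at hx; rw [s1] at hx'
      exact Or.inr ⟨rfl, Complex.ext hx'.1 hx.2⟩
    · exact fun h => absurd rfl h
    · rintro - x ⟨hx, hx'⟩
      rw [s2] at hx; rw [s3] at hx'
      exact Or.inl ⟨rfl, Complex.ext hx'.1 hx.2⟩
    · rintro - x ⟨hx, hx'⟩
      rw [s3] at hx; rw [s0] at hx'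
      exact Or.inl ⟨rfl, Complex.ext hx.1 hx'.2⟩
    · rintro - x ⟨hx, hx'⟩
      rw [s3] at hx; rw [s1] at hx'
      have h1 : x.re = X := hx.1
      have h2 : x.re = X + A := hx'.1
      linarith
    · rintro - x ⟨hx, hx'⟩
      rw [s3] at hx; rw [s2] at hx'
      exact Or.inr ⟨rfl, Complex.ext hx.1 hx'.2⟩
    · exact fun h => absurd rfl h

lemma isPolygon_Sq {X Y A : ℤ} (hA : 0 < A) : IsPolygon (Sq X Y A) := by
  have hA' : (0 : ℝ) < A := by exact_mod_cast hA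
  refine ⟨isCompact_Sq X Y A, ?_, 4, corner X Y A, simple_corner X Y A hA', ?_⟩
  · rw [interior_Sq]
    refine ⟨⟨X + A / 2, Y + A / 2⟩, ?_⟩
    rw [Complex.mem_reProdIm]
    refine ⟨⟨?_, ?_⟩, ?_, ?_⟩ <;> simp only <;> linarith
  · rw [(isCompact_Sq X Y A).isClosed.frontier_eq, interior_Sq]
    ext z
    rw [mem_iUnion]
    have s0 := side0 X Y A hA'
    have s1 := side1 X Y A hA'
    have s2 := side2 X Y A hA'
    have s3 := side3 X Y A hA'
    constructor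
    · rintro ⟨⟨⟨h1, h2⟩, h3, h4⟩, hn⟩
      by_cases e1 : z.re = X
      · exact ⟨3, by rw [s3]; exact ⟨e1, h3, h4⟩⟩
      by_cases e2 : z.re = X + A
      · exact ⟨1, by rw [s1]; exact ⟨e2, h3, h4⟩⟩
      by_cases e3 : z.im = Y
      · exact ⟨0, by rw [s0]; exact ⟨⟨h1, h2⟩, e3⟩⟩
      by_cases e4 : z.im = Y + A
      · exact ⟨2, by rw [s2]; exact ⟨⟨h1, h2⟩, e4⟩⟩
      · exact absurd ⟨⟨lt_of_le_of_ne h1 (Ne.symm e1), lt_of_le_of_ne h2 e2⟩,
          lt_of_le_of_ne h3 (Ne.symm e3), lt_of_le_of_ne h4 e4⟩ hn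
    · rintro ⟨i, hi⟩
      revert i
      refine forall_four ?_ ?_ ?_ ?_
      · intro hi
        rw [s0] at hi
        obtain ⟨⟨h1, h2⟩, h3⟩ := hi
        have h3 : z.im = Y := h3
        exact ⟨⟨⟨h1, h2⟩, by rw [h3], by rw [h3]; linarith⟩, fun h => absurd h.2.1 (by rw [h3]; simp)⟩
      · intro hi
        rw [s1] at hi
        obtain ⟨h3, h1, h2⟩ := hi
        have h3 : z.re = X + A := h3
        exact ⟨⟨⟨by rw [h3]; linarith, by rw [h3]⟩, h1, h2⟩,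
          fun h => absurd h.1.2 (by rw [h3]; simp)⟩
      · intro hi
        rw [s2] at hi
        obtain ⟨⟨h1, h2⟩, h3⟩ := hi
        have h3 : z.im = Y + A := h3
        exact ⟨⟨⟨h1, h2⟩, by rw [h3]; linarith, by rw [h3]⟩, fun h => absurd h.2.2 (by rw [h3]; simp)⟩
      · intro hi
        rw [s3] at hi
        obtain ⟨h3, h1, h2⟩ := hi
        have h3 : z.re = X := h3
        exact ⟨⟨⟨by rw [h3], by rw [h3]; linarith⟩, h1, h2⟩,
          fun h => absurd h.1.1 (by rw [h3]; simp)⟩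

lemma isSSP : IsSelfSimilarPolygonal T₀ := by
  refine ⟨isTiling, isSelfSimilar, isQuasiperiodic, finiteOrder, ?_, all_similar⟩
  rintro _ ⟨X, Y, A, hg, rfl⟩
  exact isPolygon_Sq (good_pos hg)

/-! ### The tiling is not generated -/

lemma sim_comp {f g : ℂ → ℂ} {r s : ℝ} (hf : IsSimilitude f r) (hg : IsSimilitude g s) :
    IsSimilitude (f ∘ g) (r * s) :=
  ⟨mul_pos hf.1 hg.1, fun x y => by rw [Function.comp, Function.comp, hf.2, hg.2, mul_assoc]⟩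

lemma sim_symm {f : ℂ ≃ ℂ} {r : ℝ} (hf : IsSimilitude f r) : IsSimilitude f.symm r⁻¹ := by
  refine ⟨inv_pos.2 hf.1, fun x y => ?_⟩
  have h := hf.2 (f.symm x) (f.symm y)
  rw [f.apply_symm_apply, f.apply_symm_apply] at h
  rw [h, ← mul_assoc, inv_mul_cancel₀ hf.1.ne', one_mul]

lemma sim_comp_list {N : ℕ} {f : Fin N → ℂ ≃ ℂ} {s : ℝ} {a : Fin N → ℕ}
    (h : ∀ i, IsSimilitude (f i) (s ^ a i)) (σ : List (Fin N)) :
    IsSimilitude (comp f σ) (s ^ e a σ) := by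
  induction σ with
  | nil =>
    refine ⟨by simp [e], fun x y => by simp [comp, e]⟩
  | cons i σ ih =>
    have h1 := sim_comp (h i) ih
    have h2 : s ^ e a (i :: σ) = s ^ a i * s ^ e a σ := by
      rw [← pow_add]
      rfl
    rw [h2]
    exact h1

lemma sim_compInv_list {N : ℕ} {f : Fin N → ℂ ≃ ℂ} {s : ℝ} {a : Fin N → ℕ}
    (h : ∀ i, IsSimilitude (f i) (s ^ a i)) (σ : List (Fin N)) :
    IsSimilitude (compInv f σ) (s ^ e a σ)⁻¹ := by
  induction σ with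
  | nil =>
    refine ⟨by simp [e], fun x y => by simp [compInv, e]⟩
  | cons i σ ih =>
    have h1 := sim_comp (sim_symm (h i)) ih
    have h2 : (s ^ e a (i :: σ))⁻¹ = (s ^ a i)⁻¹ * (s ^ e a σ)⁻¹ := by
      rw [← mul_inv, ← pow_add]
      rfl
    rw [h2]
    exact h1

lemma diam_image {f : ℂ → ℂ} {r : ℝ} (hf : IsSimilitude f r) (p : Set ℂ) :
    diam (f '' p) = r * diam p := by
  let g : ℂ →ᵈ ℂ := Dilation.mkOfDistEq f ⟨⟨r, hf.1.le⟩, by
    intro h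
    exact hf.1.ne' (congrArg NNReal.toReal h), hf.2⟩
  have hg : ⇑g = f := rfl
  have hr : (Dilation.ratio g : ℝ) = r := by
    have h01 : dist (0 : ℂ) 1 ≠ 0 := by simp
    have h1 := Dilation.dist_eq g 0 1
    rw [hg, hf.2] at h1
    exact (mul_right_cancel₀ h01 h1).symm
  rw [← hg, Dilation.diam_image, hr]

lemma diam_of_mem {p : Set ℂ} {N : ℕ} {f : Fin N → ℂ ≃ ℂ} {s : ℝ} {a : Fin N → ℕ}
    (hs : 0 < s) (h : ∀ i, IsSimilitude (f i) (s ^ a i)) {θ : ℕ → Fin N} {t : Set ℂ}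
    (ht : t ∈ generated p f a θ) : ∃ j : ℤ, diam t = s ^ j * diam p := by
  rw [generated, mem_iUnion₂] at ht
  obtain ⟨k, -, σ, -, -, rfl⟩ := ht
  refine ⟨(e a σ : ℤ) - e a (pre θ k), ?_⟩
  rw [diam_image (sim_comp (sim_compInv_list h (pre θ k)) (sim_comp_list h σ)),
    zpow_sub₀ hs.ne', zpow_natCast, zpow_natCast]
  ring

lemma diam_Sq (A : ℕ) (X Y : ℤ) : diam (Sq X Y A) = A * diam (Sq 0 0 1) := by
  rcases Nat.eq_zero_or_pos A with rfl | hA
  · have : (Sq X Y (0 : ℕ)).Subsingleton := by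
      intro z hz w hw
      rw [mem_Sq] at hz hw
      push_cast at hz hw
      apply Complex.ext <;> linarith [hz.1.1, hz.1.2, hz.2.1, hz.2.2, hw.1.1, hw.1.2, hw.2.1, hw.2.2]
    rw [Metric.diam_subsingleton this]
    simp
  · have hA' : (0 : ℝ) < A := by exact_mod_cast hA
    have h1 : (fun z : ℂ => (⟨X, Y⟩ : ℂ) + z) '' ((fun z : ℂ => ((A : ℝ) : ℂ) * z) '' Sq 0 0 1) =
        Sq X Y A := by
      rw [image_mul_Sq 0 0 1 A hA']
      have h2 : Icc ((A : ℝ) * ((0 : ℤ) : ℝ)) (A * (((0 : ℤ) : ℝ) + ((1 : ℤ) : ℝ))) ×ℂ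
          Icc ((A : ℝ) * ((0 : ℤ) : ℝ)) (A * (((0 : ℤ) : ℝ) + ((1 : ℤ) : ℝ))) = Sq 0 0 A := by
        rw [Sq]
        push_cast
        simp
      rw [h2, image_add_Sq, zero_add, zero_add]
    rw [← h1, diam_image (r := 1) ⟨one_pos, fun x y => by rw [dist_add_left, one_mul]⟩,
      diam_image (similitude_mul A hA'), one_mul]

lemma diam_unit_pos : 0 < diam (Sq 0 0 1) := by
  have h0 : (0 : ℂ) ∈ Sq 0 0 1 := by
    rw [mem_Sq]; simp
  have h1 : (1 : ℂ) ∈ Sq 0 0 1 := by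
    rw [mem_Sq]; simp
  have h2 := dist_le_diam_of_mem (isCompact_Sq 0 0 1).isBounded h0 h1
  have h3 : dist (0 : ℂ) 1 = 1 := by simp
  linarith

/-- **The answer to Q1 is no.**  There is a self-similar polygonal tiling of the plane which is not
obtained by the generating-pair method. -/
theorem result : ∃ T : Set (Set ℂ), IsSelfSimilarPolygonal T ∧
    ∀ (p : Set ℂ) (N : ℕ) (f : Fin N → ℂ ≃ ℂ) (s : ℝ) (a : Fin N → ℕ),
      IsGeneratingPair p f s a → ∀ θ : ℕ → Fin N, T ≠ generated p f a θ := by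
  refine ⟨T₀, isSSP, ?_⟩
  rintro p N f s a ⟨-, -, hs0, hs1, -, -, hsim, -, -⟩ θ hT
  have t1 : Sq 5 5 (1 : ℕ) ∈ T₀ := ⟨5, 5, 1, Or.inr (Or.inr (by norm_num)), rfl⟩
  have t2 : Sq 3 0 (2 : ℕ) ∈ T₀ := ⟨3, 0, 2, Or.inr (Or.inl (by norm_num)), rfl⟩
  have t3 : Sq 0 0 (3 : ℕ) ∈ T₀ := ⟨0, 0, 3, Or.inl (by norm_num), rfl⟩
  rw [hT] at t1 t2 t3
  obtain ⟨j1, h1⟩ := diam_of_mem hs0 hsim t1
  obtain ⟨j2, h2⟩ := diam_of_mem hs0 hsim t2
  obtain ⟨j3, h3⟩ := diam_of_mem hs0 hsim t3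
  rw [diam_Sq] at h1 h2 h3
  have hD := diam_unit_pos
  set D := diam (Sq 0 0 1)
  have hp : 0 < diam p := by
    have h4 : 0 < s ^ j1 * diam p := by
      rw [← h1]
      push_cast
      linarith
    exact pos_of_mul_pos_right h4 (zpow_pos hs0 _).le
  have hm : s ^ (j2 - j1) = 2 := by
    rw [zpow_sub₀ hs0.ne', div_eq_iff (zpow_pos hs0 _).ne']
    apply mul_right_cancel₀ hp.ne'
    rw [← h2, mul_assoc, ← h1]
    push_cast
    ring
  have hn : s ^ (j3 - j1) = 3 := by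
    rw [zpow_sub₀ hs0.ne', div_eq_iff (zpow_pos hs0 _).ne']
    apply mul_right_cancel₀ hp.ne'
    rw [← h3, mul_assoc, ← h1]
    push_cast
    ring
  -- `s ^ m = 2`, `s ^ n = 3` with `m, n < 0`
  have key : ∀ (m : ℤ) (c : ℝ), 1 < c → s ^ m = c → ∃ k : ℕ, 0 < k ∧ m = -k := by
    intro m c hc hmc
    have hneg : m < 0 := by
      by_contra hcon
      push Not at hcon
      obtain ⟨k, rfl⟩ := Int.eq_ofNat_of_zero_le hcon
      rw [zpow_natCast] at hmc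
      have := pow_le_one₀ (n := k) hs0.le hs1.le
      linarith
    exact ⟨(-m).toNat, by omega, by omega⟩
  obtain ⟨m, hm0, hm'⟩ := key _ 2 (by norm_num) hm
  obtain ⟨n, hn0, hn'⟩ := key _ 3 (by norm_num) hn
  rw [hm', zpow_neg, zpow_natCast] at hm
  rw [hn', zpow_neg, zpow_natCast] at hn
  have h5 : (2 : ℝ) ^ n = 3 ^ m := by
    rw [← hm, ← hn, inv_pow, inv_pow, ← pow_mul, ← pow_mul, mul_comm]
  have h6 : 2 ^ n = 3 ^ m := by exact_mod_cast h5
  have h7 : Even (3 ^ m) := by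
    rw [← h6]
    exact Nat.even_pow.2 ⟨even_two, hn0.ne'⟩
  exact absurd h7 (Nat.not_even_iff_odd.2 (Odd.pow (by decide)))

end Pool.Agent.Results.MP_4b3b27_co.NotGenerated
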